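import Pool.Agent.Q38.BKC.NRM

/-! Job E1 of project BKC: the linear equations for the set `G`. -/

set_option autoImplicit false

namespace Pool.Agent.Q38.BKC

open Pool.Agent.Q274.BKC Pool.Agent.Y676.HS
open Pool.Agent.W335.BMX (isSquare_coe sq_of_residue toZMod_eq_zero_iff)
open scoped Classical

/-- additive quadratic symbol on `ZMod i` -/
noncomputable def nz (i : ℕ) (x : ZMod i) : ZMod 2 := if IsSquare x then 0 else 1

theorem nr_eq (i a : ℕ) : nr i a = nz i (a : ZMod i) := rfl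

theorem nz_sq {i : ℕ} {x : ZMod i} (h : IsSquare x) : nz i x = 0 := if_pos h

section

variable {i : ℕ} [hi : Fact i.Prime]

theorem nz_char {x : ZMod i} (hx : x ≠ 0) :
    nz i x = if quadraticChar (ZMod i) x = 1 then 0 else 1 := by
  unfold nz
  by_cases h : IsSquare x
  · rw [if_pos h, if_pos ((quadraticChar_one_iff_isSquare hx).2 h)]
  · rw [if_neg h, if_neg fun h' => h ((quadraticChar_one_iff_isSquare hx).1 h')]

theorem nz_mul {x y : ZMod i} (hx : x ≠ 0) (hy : y ≠ 0) : nz i (x * y) = nz i x + nz i y := by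
  have h2 : (1 : ZMod 2) + 1 = 0 := by decide
  rw [nz_char (mul_ne_zero hx hy), nz_char hx, nz_char hy, map_mul]
  rcases quadraticChar_dichotomy hx with h | h <;> rcases quadraticChar_dichotomy hy with h' | h'
  · rw [h, h']; norm_num
  · rw [h, h']; norm_num
  · rw [h, h']; norm_num
  · have h3 : (-1 : ℤ) * -1 = 1 := by norm_num
    rw [h, h', h3, if_pos rfl, if_neg (by norm_num), h2]

theorem nz_prod (S : Finset ℕ) (h : ∀ p ∈ S, (p : ZMod i) ≠ 0) :
    ((∏ p ∈ S, p : ℕ) : ZMod i) ≠ 0 ∧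
      nz i ((∏ p ∈ S, p : ℕ) : ZMod i) = ∑ p ∈ S, nr i p := by
  induction S using Finset.induction_on with
  | empty =>
    refine ⟨by simp, ?_⟩
    rw [Finset.prod_empty, Finset.sum_empty]
    exact nz_sq ⟨1, by simp⟩
  | insert a s ha ih =>
    obtain ⟨h1, h2⟩ := ih fun p hp => h p (Finset.mem_insert_of_mem hp)
    have h3 := h a (Finset.mem_insert_self a s)
    rw [Finset.prod_insert ha, Finset.sum_insert ha, Nat.cast_mul]
    exact ⟨mul_ne_zero h3 h1, by rw [nz_mul h3 h1, h2, nr_eq]⟩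

theorem nz_two (h2 : (2 : ZMod i) ≠ 0) (b : ℕ) : nz i ((2 : ZMod i) ^ b) = b * nr i 2 := by
  induction b with
  | zero =>
    rw [pow_zero, Nat.cast_zero, zero_mul]
    exact nz_sq ⟨1, by simp⟩
  | succ n ih =>
    rw [pow_succ, nz_mul (pow_ne_zero _ h2) h2, ih, nr_eq, Nat.cast_two, Nat.cast_succ]
    ring

theorem sq_toZMod {z : ℤ_[i]} (h : IsSquare (z : ℚ_[i])) : IsSquare (PadicInt.toZMod z) := by
  obtain ⟨w, hw⟩ := h
  have h1 : ‖w‖ ≤ 1 := by
    have h2 : ‖w‖ * ‖w‖ ≤ 1 := by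
      rw [← norm_mul, ← hw]
      exact z.2
    nlinarith [norm_nonneg w]
  obtain ⟨y, hy⟩ : ∃ y : ℤ_[i], (y : ℚ_[i]) = w := ⟨⟨w, h1⟩, rfl⟩
  have h3 : z = y * y := by
    apply Subtype.ext
    rw [hw, ← hy]
    rfl
  exact ⟨PadicInt.toZMod y, by rw [h3, map_mul]⟩

theorem not_sq {u : ℚ_[i]} (hu : ‖u‖ = 1) : ¬ IsSquare ((i : ℚ_[i]) * u) := by
  rintro ⟨w, hw⟩
  have hi0 : (i : ℚ_[i]) ≠ 0 := by exact_mod_cast hi.out.ne_zero
  have hw0 : w ≠ 0 := by
    rintro rfl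
    rw [mul_zero] at hw
    exact mul_ne_zero hi0 (norm_ne hu) hw
  have h1 := congrArg Padic.valuation hw
  rw [Padic.valuation_mul hi0 (norm_ne hu), Padic.valuation_mul hw0 hw0, val_unit hu,
    Padic.valuation_p] at h1
  omega

theorem norm_int_one {z : ℤ_[i]} (h : PadicInt.toZMod z ≠ 0) : ‖(z : ℚ_[i])‖ = 1 := by
  refine le_antisymm z.2 (not_lt.1 fun h1 => h ?_)
  rw [toZMod_eq_zero_iff, ← PadicInt.norm_lt_one_iff_dvd]
  exact h1

end

/-- **E1** -/
theorem t_E1 : S_E1 := by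
  intro q D A B b G r hq hq8 hC hL hG hr hN i hiS
  obtain ⟨hiP, hisq⟩ := mem_SP.1 hiS
  have hip := Nat.prime_of_mem_primeFactors hiP
  have hiD := Nat.dvd_of_mem_primeFactors hiP
  have : Fact i.Prime := ⟨hip⟩
  obtain ⟨hi4, hiq⟩ := hC.one i hip hiD
  have hi2 : i ≠ 2 := by rintro rfl; omega
  have hinq : ¬ i ∣ q := fun h => hiq ((Nat.prime_dvd_prime_iff_eq hip hq).1 h)
  have hcast : ∀ p : ℕ, p.Prime → p ≠ i → (p : ZMod i) ≠ 0 := by
    intro p hp hpi h
    rw [ZMod.natCast_eq_zero_iff] at h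
    exact hpi ((Nat.prime_dvd_prime_iff_eq hip hp).1 h).symm
  have hq0 : (q : ZMod i) ≠ 0 := hcast q hq hiq.symm
  have h20 : (2 : ZMod i) ≠ 0 := by
    have := hcast 2 Nat.prime_two hi2.symm
    exact_mod_cast this
  have hGp : ∀ p ∈ G, p.Prime := fun p hp => Nat.prime_of_mem_primeFactors (mem_SP.1 (hG hp)).1
  -- the root
  obtain ⟨a, ha⟩ := hisq
  have ha0 : a ≠ 0 := by
    rintro rfl
    rw [mul_zero, neg_eq_zero] at ha
    exact hq0 ha
  obtain ⟨z, hz⟩ := sq_of_residue hi2 (-(q : ℤ_[i])) a ha0 (by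
    rw [map_neg, map_natCast, ha, sq])
  have ht : (z : ℚ_[i]) ^ 2 = -(q : ℚ_[i]) := by
    have h1 := congrArg (fun x : ℤ_[i] => (x : ℚ_[i])) hz
    push_cast at h1
    rw [h1, sq]
  have hz2 : PadicInt.toZMod z ^ 2 = -(q : ZMod i) := by
    rw [sq, ← map_mul, ← hz, map_neg, map_natCast]
  have hz0 : PadicInt.toZMod z ≠ 0 := by
    intro h
    rw [h, zero_pow two_ne_zero] at hz2
    exact hq0 (neg_eq_zero.1 hz2.symm)
  have ht0 : (z : ℚ_[i]) ≠ 0 := norm_ne (norm_int_one hz0)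
  -- a root of `-1`
  obtain ⟨j, hj⟩ : IsSquare (-1 : ZMod i) := by
    rw [ZMod.exists_sq_eq_neg_one_iff]
    omega
  have hj0 : j ≠ 0 := by
    rintro rfl
    rw [mul_zero] at hj
    exact neg_ne_zero.2 one_ne_zero hj
  have hneg : IsSquare (-1 : ℚ_[i]) := by
    have h1 := isSquare_coe (sq_of_residue hi2 (-1 : ℤ_[i]) j hj0 (by rw [map_neg, map_one, hj, sq]))
    push_cast at h1
    exact h1
  -- the factors of `D`
  obtain ⟨E, hE⟩ : ∃ E : ℕ, E = ∏ p ∈ D.primeFactors.erase i, p := ⟨_, rfl⟩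
  have hDE : D = i * E := by
    rw [hE, Finset.mul_prod_erase _ (fun p => p) hiP, Nat.prod_primeFactors_of_squarefree hC.sqf]
  obtain ⟨hE0, hE1⟩ := nz_prod (i := i) (D.primeFactors.erase i) fun p hp =>
    hcast p (Nat.prime_of_mem_primeFactors (Finset.mem_of_mem_erase hp))
      (Finset.ne_of_mem_erase hp)
  rw [← hE] at hE0 hE1
  have hD0 : (D : ℚ_[i]) ≠ 0 := by exact_mod_cast hC.sqf.ne_zero
  -- the product of the conditions at `t` and `-t`
  have hdis : IsSquare (((A ^ 2 + q * B ^ 2 : ℚ)) : ℚ_[i]) ∨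
      IsSquare ((((A ^ 2 + q * B ^ 2 : ℚ)) : ℚ_[i]) * (D * z)) := by
    have h3 : (((A ^ 2 + q * B ^ 2 : ℚ)) : ℚ_[i]) =
        ((A : ℚ_[i]) + B * z) * ((A : ℚ_[i]) + B * (-z)) := by
      push_cast
      linear_combination (B : ℚ_[i]) ^ 2 * ht
    rw [h3]
    rcases hL.split i hiD z ht with h1 | h1 <;>
      rcases hL.split i hiD (-z) (by rw [neg_sq, ht]) with h2 | h2
    · exact Or.inl (h1.mul h2)
    · right
      have := (hneg.mul h1).mul h2
      have e : ((A : ℚ_[i]) + B * z) * ((A : ℚ_[i]) + B * (-z)) * (D * z) =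
          -1 * ((A : ℚ_[i]) + B * z) * (((A : ℚ_[i]) + B * (-z)) * (D * (-z))) := by ring
      rw [e]
      exact this
    · right
      have := h1.mul h2
      have e : ((A : ℚ_[i]) + B * z) * ((A : ℚ_[i]) + B * (-z)) * (D * z) =
          ((A : ℚ_[i]) + B * z) * (D * z) * ((A : ℚ_[i]) + B * (-z)) := by ring
      rw [e]
      exact this
    · left
      have h4 : IsSquare (((D : ℚ_[i]) * z)⁻¹ ^ 2) := IsSquare.sq _
      have := ((hneg.mul h1).mul h2).mul h4
      have e : ((A : ℚ_[i]) + B * z) * ((A : ℚ_[i]) + B * (-z)) =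
          -1 * (((A : ℚ_[i]) + B * z) * (D * z)) * (((A : ℚ_[i]) + B * (-z)) * (D * (-z))) *
            ((D : ℚ_[i]) * z)⁻¹ ^ 2 := by
        field_simp
      rw [e]
      exact this
  have hr' : (r : ℚ_[i]) ≠ 0 := by exact_mod_cast hr
  have hdis' : ∀ X : ℚ_[i], IsSquare ((((A ^ 2 + q * B ^ 2 : ℚ)) : ℚ_[i]) * X) →
      IsSquare (((2 ^ b * ∏ p ∈ G, p : ℕ) : ℚ_[i]) * X) := by
    intro X hX
    have h4 : IsSquare ((r : ℚ_[i])⁻¹ ^ 2) := IsSquare.sq _
    have h5 := hX.mul h4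
    rw [hN] at h5
    have e : ((2 ^ b * ∏ p ∈ G, p : ℕ) : ℚ_[i]) * X =
        (((2 ^ b * ((∏ p ∈ G, p : ℕ) : ℚ) * r ^ 2 : ℚ)) : ℚ_[i]) * X * (r : ℚ_[i])⁻¹ ^ 2 := by
      push_cast
      field_simp
    rw [e]
    exact h5
  unfold row
  by_cases hiG : i ∈ G
  · rw [if_pos hiG]
    obtain ⟨U, hU⟩ : ∃ U : ℕ, U = ∏ p ∈ G.erase i, p := ⟨_, rfl⟩
    have hGU : ∏ p ∈ G, p = i * U := by
      rw [hU, Finset.mul_prod_erase _ (fun p => p) hiG]
    obtain ⟨hU0, hU1⟩ := nz_prod (i := i) (G.erase i) fun p hp =>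
      hcast p (hGp p (Finset.mem_of_mem_erase hp)) (Finset.ne_of_mem_erase hp)
    rw [← hU] at hU0 hU1
    have hb0 : ((2 : ZMod i) ^ b) ≠ 0 := pow_ne_zero _ h20
    have hbU : ((2 ^ b * U : ℕ) : ZMod i) ≠ 0 := by
      push_cast
      exact mul_ne_zero hb0 hU0
    have hsq : IsSquare ((((2 ^ b * U * E : ℕ) : ℤ_[i]) * z : ℤ_[i]) : ℚ_[i]) := by
      rcases hdis with h1 | h1
      · exfalso
        have h2 := hdis' 1 (by rwa [mul_one])
        have h3 : ‖((((2 ^ b * U : ℕ) : ℤ_[i])) : ℚ_[i])‖ = 1 :=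
          norm_int_one (by rwa [map_natCast])
        apply not_sq h3
        rw [hGU] at h2
        have e : (i : ℚ_[i]) * ((((2 ^ b * U : ℕ) : ℤ_[i])) : ℚ_[i]) =
            ((2 ^ b * (i * U) : ℕ) : ℚ_[i]) * 1 := by
          simp only [PadicInt.coe_natCast]
          push_cast
          ring
        rw [e]
        exact h2
      · have h2 := hdis' _ h1
        have hi0 : (i : ℚ_[i]) ≠ 0 := by exact_mod_cast hip.ne_zero
        have h4 : IsSquare ((i : ℚ_[i])⁻¹ ^ 2) := IsSquare.sq _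
        have h5 := h2.mul h4
        rw [hGU] at h5
        have e : ((((2 ^ b * U * E : ℕ) : ℤ_[i]) * z : ℤ_[i]) : ℚ_[i]) =
            ((2 ^ b * (i * U) : ℕ) : ℚ_[i]) * (D * z) * (i : ℚ_[i])⁻¹ ^ 2 := by
          rw [hDE]
          simp only [PadicInt.coe_mul, PadicInt.coe_natCast]
          push_cast
          field_simp
        rw [e]
        exact h5
    have h6 := nz_sq (sq_toZMod hsq)
    rw [map_mul, map_natCast] at h6
    have hE' : ((2 ^ b * U * E : ℕ) : ZMod i) = (2 : ZMod i) ^ b * U * E := by push_cast; ring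
    rw [hE', nz_mul (mul_ne_zero (mul_ne_zero hb0 hU0) hE0) hz0, nz_mul (mul_ne_zero hb0 hU0) hE0,
      nz_mul hb0 hU0, nz_two h20, hU1, hE1] at h6
    have h7 : nz i (PadicInt.toZMod z) = n4 q i := by
      unfold nz n4
      congr 1
      apply propext
      constructor
      · rintro ⟨y, hy⟩
        refine ⟨y, ?_⟩
        rw [← hz2, hy]
        ring
      · rintro ⟨y, hy⟩
        have h8 : (y ^ 2 - PadicInt.toZMod z) * (y ^ 2 + PadicInt.toZMod z) = 0 := by
          linear_combination hy - hz2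
        rcases mul_eq_zero.1 h8 with h9 | h9
        · exact ⟨y, by linear_combination -h9⟩
        · exact ⟨j * y, by linear_combination h9 + y ^ 2 * hj⟩
    rw [h7] at h6
    linear_combination h6
  · rw [if_neg hiG, add_zero, Finset.erase_eq_of_notMem hiG]
    obtain ⟨hU0, hU1⟩ := nz_prod (i := i) G fun p hp =>
      hcast p (hGp p hp) (fun h => hiG (h ▸ hp))
    have hb0 : ((2 : ZMod i) ^ b) ≠ 0 := pow_ne_zero _ h20
    have hbU : ((2 ^ b * ∏ p ∈ G, p : ℕ) : ZMod i) ≠ 0 := by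
      rw [Nat.cast_mul, Nat.cast_pow, Nat.cast_two]
      exact mul_ne_zero hb0 hU0
    have hsq : IsSquare ((((2 ^ b * ∏ p ∈ G, p : ℕ) : ℤ_[i])) : ℚ_[i]) := by
      rcases hdis with h1 | h1
      · have h2 := hdis' 1 (by rwa [mul_one])
        rw [mul_one] at h2
        have e : ((((2 ^ b * ∏ p ∈ G, p : ℕ) : ℤ_[i])) : ℚ_[i]) =
            ((2 ^ b * ∏ p ∈ G, p : ℕ) : ℚ_[i]) := by norm_cast
        rw [e]
        exact h2
      · exfalso
        have h2 := hdis' _ h1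
        have h3 : ‖((((2 ^ b * ∏ p ∈ G, p : ℕ) : ℤ_[i]) * ((E : ℕ) : ℤ_[i]) * z : ℤ_[i]) :
            ℚ_[i])‖ = 1 := by
          apply norm_int_one
          rw [map_mul, map_mul, map_natCast, map_natCast]
          exact mul_ne_zero (mul_ne_zero hbU hE0) hz0
        apply not_sq h3
        have e : (i : ℚ_[i]) * ((((2 ^ b * ∏ p ∈ G, p : ℕ) : ℤ_[i]) * ((E : ℕ) : ℤ_[i]) * z :
            ℤ_[i]) : ℚ_[i]) = ((2 ^ b * ∏ p ∈ G, p : ℕ) : ℚ_[i]) * (D * z) := by
          rw [hDE]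
          simp only [PadicInt.coe_mul, PadicInt.coe_natCast]
          push_cast
          ring
        rw [e]
        exact h2
    have h6 := nz_sq (sq_toZMod hsq)
    rw [map_natCast, Nat.cast_mul, Nat.cast_pow, Nat.cast_two, nz_mul hb0 hU0, nz_two h20, hU1] at h6
    linear_combination h6

end Pool.Agent.Q38.BKC
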