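import Pool.Agent.Q274.BKC.Stm2
import Pool.Agent.W335.BMX.Odd
import Pool.Agent.W310.BMX.Rep

/-! Job H2 of project BKC: the Hilbert symbols at the inert primes. -/

set_option autoImplicit false

namespace Pool.Agent.Q38.BKC

open Pool.Agent.Q274.BKC Pool.Agent.Y676.HS
open Pool.Agent.W313.BMX (Splits splits_comm splits_mul_sq)
open Pool.Agent.W335.BMX (isSquare_coe sq_of_residue toZMod_eq_zero_iff)

section odd

variable {p : ℕ} [hp : Fact p.Prime]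

/-- an element close to `1` is a square -/
theorem sq_near (hp2 : p ≠ 2) {u : ℚ_[p]} (h : ‖u - 1‖ < 1) : IsSquare u := by
  have hu : ‖u‖ ≤ 1 := by
    have h1 := Padic.nonarchimedean (u - 1) 1
    rw [sub_add_cancel, norm_one] at h1
    exact h1.trans (max_le h.le le_rfl)
  obtain ⟨z, hz⟩ : ∃ z : ℤ_[p], (z : ℚ_[p]) = u := ⟨⟨u, hu⟩, rfl⟩
  have h2 : PadicInt.toZMod z = (1 : ZMod p) ^ 2 := by
    have h3 : PadicInt.toZMod (z - 1) = 0 := by
      rw [toZMod_eq_zero_iff, ← PadicInt.norm_lt_one_iff_dvd, PadicInt.norm_def]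
      push_cast
      rwa [hz]
    rw [map_sub, map_one, sub_eq_zero] at h3
    rw [h3, one_pow]
  rw [← hz]
  exact isSquare_coe (sq_of_residue hp2 _ 1 one_ne_zero h2)

theorem unit_rep {u : ℚ_[p]} (hu : ‖u‖ = 1) :
    ∃ (m : ℤ) (c : ℚ_[p]), ¬ (p : ℤ) ∣ m ∧ c ≠ 0 ∧ u = m * c ^ 2 := by
  obtain ⟨m, z, hm, hz, hmz⟩ := Pool.Agent.W310.BMX.unit_rep (⟨u, hu.le⟩ : ℤ_[p]) hu
  refine ⟨m, z, hm, fun h => hz (Subtype.ext h), ?_⟩
  have := congrArg (fun x : ℤ_[p] => (x : ℚ_[p])) hmz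
  push_cast at this
  exact this

theorem norm_ne {u : ℚ_[p]} (hu : ‖u‖ = 1) : u ≠ 0 := by
  rintro rfl
  rw [norm_zero] at hu
  exact zero_ne_one hu

theorem int_ne {m : ℤ} (hm : ¬ (p : ℤ) ∣ m) : (m : ℚ_[p]) ≠ 0 := by
  intro h
  have : m = 0 := by exact_mod_cast h
  exact hm (this ▸ dvd_zero _)

theorem hs_one_left (v : ℚ_[p]) : hs 1 v = 1 := by
  rw [hs_one_iff]
  exact ⟨1, 0, 1, Or.inl one_ne_zero, by ring⟩

theorem hs_sq_left {u : ℚ_[p]} (hu : u ≠ 0) (h : IsSquare u) (v : ℚ_[p]) : hs u v = 1 := by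
  rw [hs_cls one_ne_zero hu (by rwa [mul_one]), hs_one_left]

theorem hs_mulsq {u c : ℚ_[p]} (hu : u ≠ 0) (hc : c ≠ 0) (v : ℚ_[p]) :
    hs (c ^ 2 * u) v = hs u v :=
  hs_cls hu (mul_ne_zero (pow_ne_zero _ hc) hu) ⟨c * u, by ring⟩ v

theorem hs_unit (hp2 : p ≠ 2) {u v : ℚ_[p]} (hu : ‖u‖ = 1) (hv : ‖v‖ = 1) : hs u v = 1 := by
  obtain ⟨m, c, hm, hc, rfl⟩ := unit_rep hu
  obtain ⟨n, d, hn, hd, rfl⟩ := unit_rep hv
  rw [mul_comm (m : ℚ_[p]), mul_comm (n : ℚ_[p]), hs_mulsq (int_ne hm) hc, hs_comm,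
    hs_mulsq (int_ne hn) hd, hs_comm, hs_one_iff]
  exact Pool.Agent.W335.BMX.odd2 p hp2 m n hm hn

/-- the case in which one of the numbers is a unit -/
theorem core (hp2 : p ≠ 2) {q : ℕ} (hq : ‖(q : ℚ_[p])‖ = 1)
    (hns : ∀ t : ℚ_[p], t ^ 2 ≠ -(q : ℚ_[p])) {x y : ℚ_[p]} (hx : x ≠ 0) (hy : y ≠ 0)
    (hx1 : ‖x‖ ≤ 1) (hy1 : ‖y‖ ≤ 1) (h : ‖x‖ = 1 ∨ ‖y‖ = 1) :
    ‖x ^ 2 + q * y ^ 2‖ = 1 ∧ hs (x ^ 2 + q * y ^ 2) (-(x * y)) * hs x q = 1 := by
  have hq0 : (q : ℚ_[p]) ≠ 0 := norm_ne hq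
  rcases eq_or_lt_of_le hx1 with hx2 | hx2
  · rcases eq_or_lt_of_le hy1 with hy2 | hy2
    · have hN : ‖x ^ 2 + q * y ^ 2‖ = 1 := by
        have h1 : ‖x ^ 2 + q * y ^ 2‖ ≤ 1 := by
          refine (Padic.nonarchimedean _ _).trans (max_le ?_ ?_)
          · rw [norm_pow, hx2, one_pow]
          · rw [norm_mul, norm_pow, hy2, hq, one_pow, one_mul]
        refine le_antisymm h1 (not_lt.1 fun hlt => ?_)
        have h2 : ‖-(x ^ 2) / (q * y ^ 2) - 1‖ < 1 := by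
          have h3 : -(x ^ 2) / (q * y ^ 2) - 1 = -(x ^ 2 + q * y ^ 2) / (q * y ^ 2) := by
            field_simp
            ring
          rw [h3, norm_div, norm_neg, norm_mul, norm_pow, hq, hy2, one_pow, one_mul, div_one]
          exact hlt
        obtain ⟨r, hr⟩ := sq_near hp2 h2
        have hr0 : r ≠ 0 := by
          rintro rfl
          rw [mul_zero, div_eq_zero_iff] at hr
          rcases hr with h4 | h4
          · exact hx (pow_eq_zero_iff two_ne_zero |>.1 (neg_eq_zero.1 h4))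
          · exact mul_ne_zero hq0 (pow_ne_zero _ hy) h4
        refine hns (x / (y * r)) ?_
        rw [div_eq_iff (mul_ne_zero hq0 (pow_ne_zero _ hy))] at hr
        rw [div_pow, div_eq_iff (pow_ne_zero _ (mul_ne_zero hy hr0))]
        linear_combination -hr
      refine ⟨hN, ?_⟩
      rw [hs_unit hp2 hN (by rw [norm_neg, norm_mul, hx2, hy2, one_mul]), hs_unit hp2 hx2 hq,
        one_mul]
    · have h1 : ‖(1 + q * (y / x) ^ 2) - 1‖ < 1 := by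
        rw [add_sub_cancel_left, norm_mul, hq, one_mul, norm_pow, norm_div, hx2, div_one]
        exact pow_lt_one₀ (norm_nonneg _) hy2 two_ne_zero
      have h2 : x ^ 2 + q * y ^ 2 = x ^ 2 * (1 + q * (y / x) ^ 2) := by field_simp
      have h3 : IsSquare (x ^ 2 + q * y ^ 2) := by
        rw [h2]
        exact (IsSquare.sq x).mul (sq_near hp2 h1)
      have h4 : ‖1 + q * (y / x) ^ 2‖ = 1 := by
        have h5 := Padic.add_eq_max_of_ne (p := p) (q := (1 : ℚ_[p]))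
          (r := (1 + q * (y / x) ^ 2) - 1) (by rw [norm_one]; exact h1.ne')
        rw [add_sub_cancel, norm_one, max_eq_left h1.le] at h5
        exact h5
      have hN : ‖x ^ 2 + q * y ^ 2‖ = 1 := by
        rw [h2, norm_mul, norm_pow, hx2, one_pow, one_mul, h4]
      refine ⟨hN, ?_⟩
      rw [hs_sq_left (norm_ne hN) h3, hs_unit hp2 hx2 hq, one_mul]
  · have hy2 : ‖y‖ = 1 := h.resolve_left hx2.ne
    have h1 : ‖(1 + (x / y) ^ 2 / q) - 1‖ < 1 := by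
      rw [add_sub_cancel_left, norm_div, hq, div_one, norm_pow, norm_div, hy2, div_one]
      exact pow_lt_one₀ (norm_nonneg _) hx2 two_ne_zero
    have h2 : x ^ 2 + q * y ^ 2 = q * y ^ 2 * (1 + (x / y) ^ 2 / q) := by
      field_simp
      ring
    have h4 : ‖1 + (x / y) ^ 2 / q‖ = 1 := by
      have h5 := Padic.add_eq_max_of_ne (p := p) (q := (1 : ℚ_[p]))
        (r := (1 + (x / y) ^ 2 / q) - 1) (by rw [norm_one]; exact h1.ne')
      rw [add_sub_cancel, norm_one, max_eq_left h1.le] at h5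
      exact h5
    have hN : ‖x ^ 2 + q * y ^ 2‖ = 1 := by
      rw [h2, norm_mul, norm_mul, hq, norm_pow, hy2, one_pow, one_mul, one_mul, h4]
    refine ⟨hN, ?_⟩
    have h3 : IsSquare ((x ^ 2 + q * y ^ 2) * q) := by
      obtain ⟨r, hr⟩ := sq_near hp2 h1
      rw [h2, hr]
      exact ⟨q * y * r, by ring⟩
    have hBL := bl_padic p
    rw [hs_cls hq0 (norm_ne hN) h3, hs_comm x, ← hs_mul hBL hq0
      (neg_ne_zero.2 (mul_ne_zero hx hy)) hx]
    have h6 : -(x * y) * x = x ^ 2 * (-y) := by ring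
    rw [h6, hs_comm, hs_mulsq (neg_ne_zero.2 hy) hx, hs_unit hp2 (by rwa [norm_neg]) hq]

/-- scaling by the power `p ^ k`, `k` the smaller valuation -/
theorem scale {A B : ℚ} (hA : A ≠ 0) (hB : B ≠ 0) :
    ∃ x y : ℚ_[p], x ≠ 0 ∧ y ≠ 0 ∧ ‖x‖ ≤ 1 ∧ ‖y‖ ≤ 1 ∧ (‖x‖ = 1 ∨ ‖y‖ = 1) ∧
      (A : ℚ_[p]) = (p : ℚ_[p]) ^ (min (padicValRat p A) (padicValRat p B)) * x ∧
      (B : ℚ_[p]) = (p : ℚ_[p]) ^ (min (padicValRat p A) (padicValRat p B)) * y := by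
  set k := min (padicValRat p A) (padicValRat p B) with hk
  have hp0 : (p : ℚ_[p]) ≠ 0 := by exact_mod_cast hp.out.ne_zero
  have hpr : (1 : ℝ) < p := by exact_mod_cast hp.out.one_lt
  have hAp : (A : ℚ_[p]) ≠ 0 := by exact_mod_cast hA
  have hBp : (B : ℚ_[p]) ≠ 0 := by exact_mod_cast hB
  have hnorm : ∀ C : ℚ, C ≠ 0 → ‖(C : ℚ_[p]) * (p : ℚ_[p]) ^ (-k)‖ =
      (p : ℝ) ^ (k - padicValRat p C) := by
    intro C hC
    have hCp : (C : ℚ_[p]) ≠ 0 := by exact_mod_cast hC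
    rw [norm_mul, Padic.norm_eq_zpow_neg_valuation hCp, norm_zpow, Padic.norm_p,
      Padic.valuation_ratCast, inv_zpow, ← zpow_neg, neg_neg, ← zpow_add₀ (by linarith)]
    congr 1
    ring
  refine ⟨A * (p : ℚ_[p]) ^ (-k), B * (p : ℚ_[p]) ^ (-k),
    mul_ne_zero hAp (zpow_ne_zero _ hp0), mul_ne_zero hBp (zpow_ne_zero _ hp0), ?_, ?_, ?_, ?_, ?_⟩
  · rw [hnorm A hA]
    exact zpow_le_one_of_nonpos₀ hpr.le (by linarith [min_le_left (padicValRat p A) (padicValRat p B)])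
  · rw [hnorm B hB]
    exact zpow_le_one_of_nonpos₀ hpr.le (by linarith [min_le_right (padicValRat p A) (padicValRat p B)])
  · rw [hnorm A hA, hnorm B hB]
    rcases le_total (padicValRat p A) (padicValRat p B) with h | h
    · left
      rw [hk, min_eq_left h, sub_self, zpow_zero]
    · right
      rw [hk, min_eq_right h, sub_self, zpow_zero]
  · rw [mul_comm, mul_assoc, ← zpow_add₀ hp0, neg_add_cancel, zpow_zero, mul_one]
  · rw [mul_comm, mul_assoc, ← zpow_add₀ hp0, neg_add_cancel, zpow_zero, mul_one]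

end odd

theorem norm_nat_one {p : ℕ} [hp : Fact p.Prime] {q : ℕ} (hpq : ¬ p ∣ q) :
    ‖(q : ℚ_[p])‖ = 1 := by
  have h1 : ‖((q : ℤ) : ℤ_[p])‖ = 1 := by
    refine le_antisymm (PadicInt.norm_le_one _) (not_lt.1 fun h => ?_)
    rw [PadicInt.norm_int_lt_one_iff_dvd] at h
    exact hpq (by exact_mod_cast h)
  rw [← h1, PadicInt.norm_def]
  push_cast
  rfl

/-- **H2** -/
theorem t_H2 : S_H2 := by
  classical
  intro p _ q A B hq hp2 hpq hns hA hB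
  have hp := (Fact.out : p.Prime)
  have hq1 : ‖(q : ℚ_[p])‖ = 1 := norm_nat_one hpq
  have hq0 : (q : ℚ_[p]) ≠ 0 := norm_ne hq1
  have hp0 : (p : ℚ_[p]) ≠ 0 := by exact_mod_cast hp.ne_zero
  have hBL := bl_padic p
  obtain ⟨x, y, hx, hy, hx1, hy1, hxy, hAx, hBy⟩ := scale (p := p) hA hB
  set k := min (padicValRat p A) (padicValRat p B) with hk
  obtain ⟨hN, hc⟩ := core hp2 hq1 hns hx hy hx1 hy1 hxy
  have hP0 : (p : ℚ_[p]) ^ k ≠ 0 := zpow_ne_zero _ hp0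
  have h1 : hh q A B p = hs ((p : ℚ_[p]) ^ k) q := by
    unfold hh
    have e1 : (((A ^ 2 + q * B ^ 2 : ℚ)) : ℚ_[p]) = ((p : ℚ_[p]) ^ k) ^ 2 * (x ^ 2 + q * y ^ 2) := by
      push_cast
      rw [hAx, hBy]
      ring
    have e2 : ((-(A * B) : ℚ) : ℚ_[p]) = ((p : ℚ_[p]) ^ k) ^ 2 * (-(x * y)) := by
      push_cast
      rw [hAx, hBy]
      ring
    have e3 : (((q : ℚ)) : ℚ_[p]) = (q : ℚ_[p]) := by push_cast; rfl
    rw [e1, e2, e3, hs_mulsq (norm_ne hN) hP0, hs_comm _ (((p : ℚ_[p]) ^ k) ^ 2 * (-(x * y))),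
      hs_mulsq (neg_ne_zero.2 (mul_ne_zero hx hy)) hP0, hs_comm (-(x * y)), hAx,
      hs_mul' hBL hq0 hP0 hx]
    calc hs (x ^ 2 + q * y ^ 2) (-(x * y)) * (hs ((p : ℚ_[p]) ^ k) q * hs x q)
        = (hs (x ^ 2 + q * y ^ 2) (-(x * y)) * hs x q) * hs ((p : ℚ_[p]) ^ k) q := by ring
      _ = hs ((p : ℚ_[p]) ^ k) q := by rw [hc, one_mul]
  rw [h1]
  have hnd : ¬ (p : ℤ) ∣ (q : ℤ) := by exact_mod_cast hpq
  by_cases hev : Even k
  · rw [if_pos (Or.inr hev)]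
    obtain ⟨j, hj⟩ := hev
    refine hs_sq_left hP0 ⟨(p : ℚ_[p]) ^ j, ?_⟩ _
    rw [← zpow_add₀ hp0, ← hj]
  · obtain ⟨j, hj⟩ := Int.not_even_iff_odd.1 hev
    have e4 : (p : ℚ_[p]) ^ k = ((p : ℚ_[p]) ^ j) ^ 2 * p := by
      rw [hj, zpow_add₀ hp0, zpow_one, mul_comm 2 j, zpow_mul]
      norm_cast
    rw [e4, hs_mulsq hp0 (zpow_ne_zero _ hp0)]
    have h5 := Pool.Agent.W335.BMX.odd3 p hp2 1 (q : ℤ) (fun h => by
      have := Int.eq_one_of_dvd_one (by positivity) h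
      have h6 := hp.one_lt
      omega) hnd
    rw [legendreSym.eq_one_iff p (Pool.Agent.W335.BMX.cast_ne_zero hnd)] at h5
    have h6 : Splits (p : ℚ_[p]) (q : ℚ_[p]) ↔ IsSquare (q : ZMod p) := by
      have h7 : (((p * 1 : ℤ)) : ℚ_[p]) = (p : ℚ_[p]) := by push_cast; ring
      have h8 : (((q : ℤ)) : ℚ_[p]) = (q : ℚ_[p]) := by push_cast; rfl
      have h9 : (((q : ℤ)) : ZMod p) = (q : ZMod p) := by push_cast; rfl
      rw [h7, h8, h9] at h5
      exact h5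
    unfold hs
    by_cases h7 : IsSquare (q : ZMod p)
    · rw [if_pos (h6.2 h7), if_pos (Or.inl h7)]
    · rw [if_neg (fun h => h7 (h6.1 h)), if_neg]
      rintro (h8 | h8)
      · exact h7 h8
      · exact hev h8

end Pool.Agent.Q38.BKC
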