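import Pool.Agent.Q38.BKC.H2

/-! Job NRM of project BKC: the norm of `A + B s` up to squares. -/

set_option autoImplicit false

namespace Pool.Agent.Q38.BKC

open Pool.Agent.Q274.BKC Pool.Agent.Y676.HS
open Pool.Agent.W335.BMX (isSquare_coe sq_of_residue toZMod_eq_zero_iff)

theorem val_unit {l : ℕ} [hl : Fact l.Prime] {u : ℚ_[l]} (hu : ‖u‖ = 1) : u.valuation = 0 := by
  have h0 : u ≠ 0 := norm_ne hu
  have h1 := Padic.norm_eq_zpow_neg_valuation h0
  rw [hu] at h1
  have h2 : (1 : ℝ) < l := by exact_mod_cast hl.out.one_lt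
  have h3 := (zpow_eq_one_iff_right₀ (by linarith) h2.ne').1 h1.symm
  omega

theorem even_val {l : ℕ} [hl : Fact l.Prime] {N : ℚ} {c u : ℚ_[l]} (hN : N ≠ 0) (hu : ‖u‖ = 1)
    (h : (N : ℚ_[l]) = c ^ 2 * u) : Even (padicValRat l N) := by
  have hN' : (N : ℚ_[l]) ≠ 0 := by exact_mod_cast hN
  have hc : c ≠ 0 := by
    rintro rfl
    rw [h] at hN'
    exact hN' (by ring)
  have hv : padicValRat l N = 2 * c.valuation := by
    rw [← Padic.valuation_ratCast (p := l), h, Padic.valuation_mul (pow_ne_zero _ hc) (norm_ne hu),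
      Padic.valuation_pow, val_unit hu, add_zero]
    push_cast
    rfl
  rw [hv]
  exact even_two_mul _

theorem norm_pos {q : ℕ} {A B : ℚ} (hA : A ≠ 0) : 0 < A ^ 2 + q * B ^ 2 := by positivity

/-- a root of `-q` gives a residue -/
theorem residue {l : ℕ} [hl : Fact l.Prime] {q : ℕ} {t : ℚ_[l]} (ht : t ^ 2 = -(q : ℚ_[l])) :
    ∃ z : ℤ_[l], (z : ℚ_[l]) = t ∧ z ^ 2 = -(q : ℤ_[l]) ∧
      PadicInt.toZMod z ^ 2 = -(q : ZMod l) := by
  have h1 : ‖t‖ ≤ 1 := by
    have h2 : ‖t‖ ^ 2 ≤ 1 := by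
      rw [← norm_pow, ht, norm_neg]
      exact_mod_cast Padic.norm_int_le_one (p := l) (q : ℤ)
    nlinarith [norm_nonneg t]
  obtain ⟨z, hz⟩ : ∃ z : ℤ_[l], (z : ℚ_[l]) = t := ⟨⟨t, h1⟩, rfl⟩
  have h3 : z ^ 2 = -(q : ℤ_[l]) := by
    have h4 : (((z ^ 2 : ℤ_[l])) : ℚ_[l]) = ((-(q : ℤ_[l]) : ℤ_[l]) : ℚ_[l]) := by
      push_cast
      rw [hz, ht]
    exact Subtype.ext h4
  refine ⟨z, hz, h3, ?_⟩
  rw [← map_pow, h3, map_neg, map_natCast]

open scoped Classical in
theorem mem_SP {q D l : ℕ} : l ∈ SP q D ↔ l ∈ D.primeFactors ∧ IsSquare (-(q : ZMod l)) := by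
  unfold SP
  rw [Finset.mem_filter]

theorem val_claim {q D : ℕ} {A B : ℚ} (hq : q.Prime) (hq8 : q % 8 = 7) (hC : Cl q D)
    (hL : Loc q D A B) (l : ℕ) [hl : Fact l.Prime] (hl2 : l ≠ 2)
    (hodd : ¬ Even (padicValRat l (A ^ 2 + q * B ^ 2))) : l ∈ SP q D := by
  have hA := hL.neA
  have hB := hL.neB
  have hN : A ^ 2 + q * B ^ 2 ≠ 0 := (norm_pos hA).ne'
  have hlp := hl.out
  have hD0 : D ≠ 0 := hC.sqf.ne_zero
  by_cases hlq : l = q
  · subst hlq
    exfalso
    obtain ⟨a, b, h1, h2⟩ := hL.ram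
    refine hodd (even_val (c := a ^ 2 + l * b ^ 2) (u := 1) hN norm_one ?_)
    push_cast
    rw [h1, h2]
    ring
  have hlnq : ¬ l ∣ q := fun h => hlq ((Nat.prime_dvd_prime_iff_eq hlp hq).1 h)
  by_cases hns : ∀ t : ℚ_[l], t ^ 2 ≠ -(q : ℚ_[l])
  · exfalso
    obtain ⟨x, y, hx, hy, hx1, hy1, hxy, hAx, hBy⟩ := scale (p := l) hA hB
    obtain ⟨hN1, -⟩ := core hl2 (norm_nat_one hlnq) hns hx hy hx1 hy1 hxy
    refine hodd (even_val hN hN1 (c := (l : ℚ_[l]) ^ min (padicValRat l A) (padicValRat l B)) ?_)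
    push_cast
    rw [hAx, hBy]
    ring
  · push Not at hns
    obtain ⟨t, ht⟩ := hns
    by_cases hlD : l ∣ D
    · obtain ⟨z, -, -, hz⟩ := residue ht
      refine mem_SP.2 ⟨Nat.mem_primeFactors.2 ⟨hlp, hlD, hD0⟩, PadicInt.toZMod z, ?_⟩
      rw [← hz, sq]
    · exfalso
      have hnd : ¬ l ∣ 2 * q * D := by
        intro h
        rcases (Nat.Prime.dvd_mul hlp).1 h with h1 | h1
        · rcases (Nat.Prime.dvd_mul hlp).1 h1 with h2 | h2
          · exact hl2 ((Nat.prime_dvd_prime_iff_eq hlp Nat.prime_two).1 h2)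
          · exact hlnq h2
        · exact hlD h1
      obtain ⟨a, u, -, hu, h1⟩ := hL.good l hnd t ht
      obtain ⟨a', u', -, hu', h2⟩ := hL.good l hnd (-t) (by rw [neg_sq, ht])
      refine hodd (even_val hN (u := u * u') (by rw [norm_mul, hu, hu', one_mul])
        (c := a * a') ?_)
      have h3 : (((A ^ 2 + q * B ^ 2 : ℚ)) : ℚ_[l]) =
          ((A : ℚ_[l]) + B * t) * ((A : ℚ_[l]) + B * (-t)) := by
        push_cast
        linear_combination (B : ℚ_[l]) ^ 2 * ht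
      rw [h3, h1, h2]
      ring

/-- **NRM** -/
theorem t_NRM : S_NRM := by
  classical
  intro q D A B hq hq8 hC hL
  have hA := hL.neA
  have hN := norm_pos (q := q) (B := B) hA
  obtain ⟨N, hNdef⟩ : ∃ N : ℚ, N = A ^ 2 + q * B ^ 2 := ⟨_, rfl⟩
  rw [← hNdef] at hN
  have hnum : 0 < N.num := Rat.num_pos.2 hN
  obtain ⟨a, c, hac, hsq⟩ := Nat.sq_mul_squarefree (N.num.toNat * N.den)
  have hden : (N.den : ℚ) ≠ 0 := by exact_mod_cast N.den_ne_zero
  have hM0 : N.num.toNat * N.den ≠ 0 := by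
    have := N.den_ne_zero
    have h2 : N.num.toNat ≠ 0 := by omega
    exact mul_ne_zero h2 this
  have hc0 : c ≠ 0 := by
    rintro rfl
    rw [zero_pow two_ne_zero, zero_mul] at hac
    exact hM0 hac.symm
  have hNa : N = (a : ℚ) * ((c : ℚ) / N.den) ^ 2 := by
    have h1 : ((c ^ 2 * a : ℕ) : ℚ) = ((N.num.toNat * N.den : ℕ) : ℚ) := by rw [hac]
    have h2 : ((N.num.toNat : ℕ) : ℚ) = N.num := by
      have : ((N.num.toNat : ℕ) : ℤ) = N.num := Int.toNat_of_nonneg hnum.le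
      exact_mod_cast congrArg (fun z : ℤ => (z : ℚ)) this
    push_cast at h1
    rw [h2] at h1
    have h3 : (N.num : ℚ) = N * N.den := (Rat.mul_den_eq_num N).symm
    rw [h3] at h1
    field_simp
    linear_combination -h1
  have hr0 : (c : ℚ) / N.den ≠ 0 := div_ne_zero (by exact_mod_cast hc0) hden
  have hcl : ∀ l ∈ a.primeFactors, l ≠ 2 → l ∈ SP q D := by
    intro l hl hl2
    have hlp := Nat.prime_of_mem_primeFactors hl
    have : Fact l.Prime := ⟨hlp⟩
    refine val_claim hq hq8 hC hL l hl2 ?_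
    rw [← hNdef]
    have ha0 : (a : ℚ) ≠ 0 := by exact_mod_cast hsq.ne_zero
    have hv : padicValRat l (a : ℚ) = 1 := by
      rw [padicValRat.of_nat]
      have h1 : padicValNat l a = 1 := by
        have h2 := (Nat.squarefree_iff_factorization_le_one hsq.ne_zero).1 hsq l
        have h3 : 0 < a.factorization l :=
          hlp.factorization_pos_of_dvd hsq.ne_zero (Nat.dvd_of_mem_primeFactors hl)
        rw [Nat.factorization_def a hlp] at h2 h3
        omega
      rw [h1]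
      rfl
    have : padicValRat l N = 1 + 2 * padicValRat l ((c : ℚ) / N.den) := by
      conv_lhs => rw [hNa]
      rw [padicValRat.mul ha0 (pow_ne_zero _ hr0), padicValRat.pow _, hv]
      push_cast
      rfl
    rw [this, Int.not_even_iff_odd]
    exact ⟨padicValRat l ((c : ℚ) / N.den), by ring⟩
  refine ⟨if 2 ∈ a.primeFactors then 1 else 0, a.primeFactors.erase 2, (c : ℚ) / N.den, ?_, ?_, hr0, ?_⟩
  · split_ifs <;> norm_num
  · intro l hl
    exact hcl l (Finset.mem_of_mem_erase hl) (Finset.ne_of_mem_erase hl)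
  · rw [← hNdef]
    have h1 : (a : ℚ) = 2 ^ (if 2 ∈ a.primeFactors then 1 else 0) *
        ((∏ p ∈ a.primeFactors.erase 2, p : ℕ) : ℚ) := by
      have h2 := Nat.prod_primeFactors_of_squarefree hsq
      conv_lhs => rw [← h2]
      split_ifs with h3
      · rw [← Finset.mul_prod_erase _ _ h3]
        push_cast
        ring
      · rw [Finset.erase_eq_of_notMem h3]
        push_cast
        ring
    rw [← h1]
    exact hNa

end Pool.Agent.Q38.BKC
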